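import Pool.Agent.V1117.QuatPhi

/-!
# Extending invariant `(HA, φ)`-neutral subspaces, nonstandard involution (Q2)
-/

set_option autoImplicit false

namespace Pool.Agent.Results.MP_64d585_al.ExtendCSet

open Quaternion MulOpposite Matrix Pool.Agent.V1117.QuatForm Pool.Agent.V1117.QuatPhi
open Pool.Agent.V1117.QuatHam (Subsp IsMax toLin IsInv eigs IsC)

/-- **Theorem** (Q2). If `S` is a c-set containing all eigenvalues of `A|N` with nonzero real part,
then the two subspaces can be chosen so that the eigenvalues with nonzero real part of the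
restrictions of `A` are exactly the elements of `S`. -/
theorem result (φ : ℍ[ℝ] →ₗ[ℝ] ℍ[ℝ]) (β : ℍ[ℝ]) (n : ℕ) (H A : Matrix (Fin n) (Fin n) ℍ[ℝ])
    (N : Subsp n) (h : Data φ β H A N) (S : Set ℍ[ℝ]) (hS : IsC A S) (hNS : eigs A N ⊆ S) :
    (∃ L : Subsp n, N ≤ L ∧ IsInv A L ∧ IsMax (IsNonneg φ β (H * A)) L ∧ eigs A L = S) ∧
    (∃ L : Subsp n, N ≤ L ∧ IsInv A L ∧ IsMax (IsNonpos φ β (H * A)) L ∧ eigs A L = S) := by
  constructor
  · obtain ⟨L, h1, h2, h3, h4⟩ := extend_cset h.isHerm (toLin A)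
      (fun x y => h.skewG x y) (fun x hx => h.rad hx) h.inv h.neutralG hS hNS
    exact ⟨L, h1, h2, h.max_nonneg h3, h4⟩
  · obtain ⟨L, h1, h2, h3, h4⟩ := extend_cset h.isHerm.neg (toLin A)
      (fun x y => congrArg Neg.neg (h.skewG x y))
      (fun x hx => h.rad fun y => neg_eq_zero.mp (hx y)) h.inv h.neutralG' hS hNS
    exact ⟨L, h1, h2, h.max_nonpos h3, h4⟩

end Pool.Agent.Results.MP_64d585_al.ExtendCSet
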