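import Pool.Agent.V1117.QuatPhi

/-!
# Extending invariant `(HA, φ)`-neutral subspaces, nonstandard involution (Q1)
-/

set_option autoImplicit false

namespace Pool.Agent.Results.MP_64d585_al.ExtendNeutral

open Quaternion MulOpposite Matrix Pool.Agent.V1117.QuatForm Pool.Agent.V1117.QuatPhi
open Pool.Agent.V1117.QuatHam (Subsp IsMax toLin IsInv eigs IsC)

/-- **Theorem** (Q1). Every `A`-invariant `(HA, φ)`-neutral subspace is contained in an
`A`-invariant maximal `(HA, φ)`-nonnegative subspace and in an `A`-invariant maximal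
`(HA, φ)`-nonpositive one. -/
theorem result (φ : ℍ[ℝ] →ₗ[ℝ] ℍ[ℝ]) (β : ℍ[ℝ]) (n : ℕ) (H A : Matrix (Fin n) (Fin n) ℍ[ℝ])
    (N : Subsp n) (h : Data φ β H A N) :
    (∃ L : Subsp n, N ≤ L ∧ IsInv A L ∧ IsMax (IsNonneg φ β (H * A)) L) ∧
    (∃ L : Subsp n, N ≤ L ∧ IsInv A L ∧ IsMax (IsNonpos φ β (H * A)) L) := by
  constructor
  · obtain ⟨L, h1, h2, h3⟩ := extend_neutral h.isHerm (toLin A)
      (fun x y => h.skewG x y) h.inv h.neutralG
    exact ⟨L, h1, h2, h.max_nonneg h3⟩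
  · obtain ⟨L, h1, h2, h3⟩ := extend_neutral h.isHerm.neg (toLin A)
      (fun x y => congrArg Neg.neg (h.skewG x y)) h.inv h.neutralG'
    exact ⟨L, h1, h2, h.max_nonpos h3⟩

end Pool.Agent.Results.MP_64d585_al.ExtendNeutral
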